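import Pool.Agent.K1H14.SD.Stm

/-!
# Project SD, piece PI: complexification of a positive form
-/

namespace Pool.Agent.K1H61.SD

open Pool.Agent.K1H14.KS Pool.Agent.K1H14.SD

universe u

theorem t_PI (h4 : S_HER.{u}) : S_PI.{u} := by
  intro A _ _ d M st tr c y y' u₀ u₀' z hE hT hC hy hy' hu hu' hst _ hz hzz hpos u hu0
  obtain ⟨hcc, _, htst, _⟩ := h4 M st tr c hE hT hC
  obtain ⟨hC1, _⟩ := hC
  have st1 : st (1 : A) = 1 := by
    have := hE.st_M ∅ (by simp)
    rw [hE.one] at this
    simpa using this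
  -- st u₀' = - u₀'
  have hsu : st u₀' = -u₀' := by
    have e1 : st u₀' * u₀ = -1 := by
      have h := hE.st_mul u₀ u₀'
      rw [hu, st1, hst, mul_neg] at h
      rw [h, neg_neg]
    calc st u₀' = st u₀' * (u₀ * u₀') := by rw [hu, mul_one]
      _ = (st u₀' * u₀) * u₀' := by rw [mul_assoc]
      _ = -u₀' := by rw [e1]; simp
  -- the tilde
  let T : A → A := fun u => y' * c u * st y'
  have c1 : c 1 = 1 := hC1.one
  have c0 : c 0 = 0 := by
    have := hC1.add 0 0
    rw [add_zero] at this
    exact left_eq_add.mp this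
  have cneg : ∀ x, c (-x) = - c x := by
    intro x
    have := hC1.add x (-x)
    rw [add_neg_cancel, c0] at this
    exact (neg_eq_of_add_eq_zero_right this.symm).symm
  have hyc : y' * c y' = z • (1 : A) := by
    have e1 : (c y * y) * (y' * c y') = 1 := by
      rw [mul_assoc, ← mul_assoc y, hy, one_mul, ← hC1.mul, hy, c1]
    rw [hz, smul_mul_assoc, one_mul] at e1
    calc y' * c y' = (z * z) • (y' * c y') := by rw [hzz, one_smul]
      _ = z • (z • (y' * c y')) := by rw [mul_smul]
      _ = z • (1 : A) := by rw [e1]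
  have hTT : ∀ x, T (T x) = x := by
    intro x
    show y' * c (y' * c x * st y') * st y' = x
    rw [hC1.mul, hC1.mul, hcc, hC1.st]
    calc y' * (c y' * x * st (c y')) * st y' = (y' * c y') * x * (st (c y') * st y') := by
          simp only [mul_assoc]
      _ = x := by
          rw [← hE.st_mul, hyc, map_smul, st1]
          simp only [smul_mul_assoc, mul_smul_comm, one_mul, mul_one, smul_smul, hzz, one_smul]
  have hTadd : ∀ a b, T (a + b) = T a + T b := by
    intro a b
    show y' * c (a + b) * st y' = y' * c a * st y' + y' * c b * st y'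
    rw [hC1.add, mul_add, add_mul]
  have hTneg : ∀ a, T (-a) = -T a := by
    intro a
    show y' * c (-a) * st y' = -(y' * c a * st y')
    rw [cneg, mul_neg, neg_mul]
  have hTsmul : ∀ (k : ℂ) a, T (k • a) = (starRingEnd ℂ) k • T a := by
    intro k a
    show y' * c (k • a) * st y' = (starRingEnd ℂ) k • (y' * c a * st y')
    rw [hC1.smul, mul_smul_comm, smul_mul_assoc]
  have hfix : ∀ a, T a = a → y * a * st y = c a := by
    intro a ha
    conv_lhs => rw [← ha]
    show y * (y' * c a * st y') * st y = c a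
    calc y * (y' * c a * st y') * st y = (y * y') * c a * (st y' * st y) := by
          simp only [mul_assoc]
      _ = c a := by rw [← hE.st_mul, hy, st1, one_mul, mul_one]
  -- the bilinear form
  let B : A → A → ℂ := fun a b => tr (a * u₀' * st b * st u₀')
  have hBadd1 : ∀ a b x, B (a + b) x = B a x + B b x := by
    intro a b x
    show tr ((a + b) * u₀' * st x * st u₀') = _
    rw [add_mul, add_mul, add_mul, map_add]
  have hBsmul1 : ∀ (k : ℂ) a x, B (k • a) x = k * B a x := by
    intro k a x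
    show tr ((k • a) * u₀' * st x * st u₀') = _
    rw [smul_mul_assoc, smul_mul_assoc, smul_mul_assoc, map_smul, smul_eq_mul]
  have hBsymm : ∀ a b, B a b = B b a := by
    intro a b
    show tr (a * u₀' * st b * st u₀') = tr (b * u₀' * st a * st u₀')
    rw [← htst (a * u₀' * st b * st u₀'), hE.st_mul, hE.st_mul, hE.st_mul, hE.st_st, hE.st_st,
      hsu, hT.2 u₀']
    congr 1
    simp only [mul_assoc, neg_mul, mul_neg]
  have hBadd2 : ∀ a b x, B x (a + b) = B x a + B x b := by
    intro a b x
    rw [hBsymm, hBadd1, hBsymm a, hBsymm b]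
  have hBsmul2 : ∀ (k : ℂ) a x, B x (k • a) = k * B x a := by
    intro k a x
    rw [hBsymm, hBsmul1, hBsymm a]
  have hgoal : tr (u * (u₀' * y') * st (c u) * st (u₀' * y')) = B u (T u) := by
    show _ = tr (u * u₀' * st (y' * c u * st y') * st u₀')
    rw [hE.st_mul, hE.st_mul, hE.st_mul, hE.st_st]
    congr 1
    simp only [mul_assoc]
  rw [hgoal]
  set v := T u with hv
  let u1 : A := (1 / 2 : ℂ) • (u + v)
  let u2 : A := (-Complex.I / 2 : ℂ) • (u + -v)
  have hTv : T v = u := hTT u
  have hu1 : T u1 = u1 := by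
    show T ((1 / 2 : ℂ) • (u + v)) = (1 / 2 : ℂ) • (u + v)
    rw [hTsmul, hTadd, hTv, ← hv, add_comm v u]
    congr 1
    rw [map_div₀, map_one, map_ofNat]
  have hu2 : T u2 = u2 := by
    show T ((-Complex.I / 2 : ℂ) • (u + -v)) = (-Complex.I / 2 : ℂ) • (u + -v)
    rw [hTsmul, hTadd, hTneg, hTv, ← hv]
    have : (starRingEnd ℂ) (-Complex.I / 2 : ℂ) = - (-Complex.I / 2 : ℂ) := by
      rw [map_div₀, map_neg, Complex.conj_I, map_ofNat, neg_div]
    rw [this, neg_smul, ← smul_neg]
    congr 1
    abel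
  have hdec : u = u1 + Complex.I • u2 := by
    show u = (1 / 2 : ℂ) • (u + v) + Complex.I • ((-Complex.I / 2 : ℂ) • (u + -v))
    rw [smul_smul]
    have : Complex.I * (-Complex.I / 2) = 1 / 2 := by
      rw [mul_div_assoc', mul_neg, Complex.I_mul_I, neg_neg]
    rw [this, ← smul_add]
    have : u + v + (u + -v) = (2 : ℂ) • u := by
      rw [two_smul]; abel
    rw [this, smul_smul]
    norm_num
  have hdecv : v = u1 + (-Complex.I) • u2 := by
    show v = (1 / 2 : ℂ) • (u + v) + (-Complex.I) • ((-Complex.I / 2 : ℂ) • (u + -v))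
    rw [smul_smul]
    have : -Complex.I * (-Complex.I / 2) = -(1 / 2) := by
      rw [mul_div_assoc', neg_mul_neg, Complex.I_mul_I]
      norm_num
    rw [this, neg_smul, ← smul_neg, ← smul_add]
    have : u + v + -(u + -v) = (2 : ℂ) • v := by
      rw [two_smul]; abel
    rw [this, smul_smul]
    norm_num
  clear_value u1 u2
  have hB : B u v = B u1 u1 + B u2 u2 := by
    have e0 : B u v = B (u1 + Complex.I • u2) (u1 + (-Complex.I) • u2) := by
      rw [← hdec, ← hdecv]
    rw [e0, hBadd1, hBadd2, hBadd2, hBsmul1, hBsmul1, hBsmul2, hBsmul2, hBsymm u2 u1]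
    have hI : Complex.I * Complex.I = -1 := Complex.I_mul_I
    linear_combination (-(B u2 u2)) * hI
  rw [hB]
  have hP : ∀ a, T a = a → a ≠ 0 → Pos (B a a) := fun a ha h0 => hpos a h0 (hfix a ha)
  have hB0 : B 0 0 = 0 := by
    have := hBsmul1 0 0 0
    rw [zero_smul, zero_mul] at this
    exact this
  by_cases h1 : u1 = 0
  · by_cases h2 : u2 = 0
    · exfalso
      apply hu0
      rw [hdec, h1, h2, smul_zero, add_zero]
    · rw [h1, hB0, zero_add]
      exact hP u2 hu2 h2
  · by_cases h2 : u2 = 0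
    · rw [h2, hB0, add_zero]
      exact hP u1 hu1 h1
    · obtain ⟨r, hr, hr'⟩ := hP u1 hu1 h1
      obtain ⟨s, hs, hs'⟩ := hP u2 hu2 h2
      exact ⟨r + s, add_pos hr hs, by rw [hr', hs']; push_cast; ring⟩

end Pool.Agent.K1H61.SD
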