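import Pool.Agent.K1H14.SD.Stm

/-!
# Project SD, piece TWO: invariant bilinear forms
-/

namespace Pool.Agent.K1H61.SD

open Pool.Agent.K1H14.KS Pool.Agent.K1H14.SD

universe u

theorem M_st {A : Type u} [Ring A] [Algebra ℂ A] {d : ℕ} {M : Finset (Fin d) → A}
    {st : A →ₗ[ℂ] A} (hE : EvenCl M st) (K : Finset (Fin d)) (hK : Even K.card) :
    M K * st (M K) = 1 := by
  have h1 := hE.st_inv K hK
  rw [hE.st_M K hK] at h1 ⊢
  rw [smul_mul_assoc] at h1
  rw [mul_smul_comm]
  exact h1

theorem upd0 {A : Type u} (w z x : A) :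
    Function.update (![w, z] : Fin 2 → A) (0 : Fin 2) x = ![x, z] := by
  funext i
  fin_cases i <;> simp

theorem upd1 {A : Type u} (w z x : A) :
    Function.update (![w, z] : Fin 2 → A) (1 : Fin 2) x = ![w, x] := by
  funext i
  fin_cases i <;> simp

/-- invariant bilinear forms -/
theorem t_TWO (h2 : S_AVG.{u}) : S_TWO.{u} := by
  intro A _ _ d M st tr hE hT f hf
  obtain ⟨_, hexp⟩ := h2 M st tr hE hT
  have hlin0 : ∀ (w w' : A) (z : A), f ![w + w', z] = f ![w, z] + f ![w', z] := by
    intro w w' z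
    have := f.map_update_add ![w, z] 0 w w'
    rwa [upd0, upd0, upd0] at this
  have hlin0s : ∀ (c : ℂ) (w : A) (z : A), f ![c • w, z] = c * f ![w, z] := by
    intro c w z
    have := f.map_update_smul ![w, z] 0 c w
    rwa [upd0, upd0, smul_eq_mul] at this
  have hlin1 : ∀ (w w' : A) (z : A), f ![z, w + w'] = f ![z, w] + f ![z, w'] := by
    intro w w' z
    have := f.map_update_add ![z, w] 1 w w'
    rwa [upd1, upd1, upd1] at this
  have hlin1s : ∀ (c : ℂ) (w : A) (z : A), f ![z, c • w] = c * f ![z, w] := by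
    intro c w z
    have := f.map_update_smul ![z, w] 1 c w
    rwa [upd1, upd1, smul_eq_mul] at this
  have hK : ∀ K : Finset (Fin d), Even K.card → ∀ w w' : A,
      f ![M K * w, w'] = f ![w, st (M K) * w'] := by
    intro K hK w w'
    have h := hf K hK ![w, st (M K) * w']
    rw [← h]
    congr 1
    funext i
    fin_cases i
    · simp
    · simp only [LinearMap.mulLeft_apply]
      show w' = M K * (st (M K) * w')
      rw [← mul_assoc, M_st hE K hK, one_mul]
  have hx : ∀ x w w' : A, f ![x * w, w'] = f ![w, st x * w'] := by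
    intro x
    refine Submodule.span_induction (p := fun x _ => ∀ w w' : A,
      f ![x * w, w'] = f ![w, st x * w']) ?_ ?_ ?_ ?_ (hE.span x)
    · rintro _ ⟨K, hKe, rfl⟩ w w'
      exact hK K hKe w w'
    · intro w w'
      rw [zero_mul, map_zero, zero_mul]
      have e1 := hlin0s 0 0 w'
      have e2 := hlin1s 0 0 w
      rw [zero_smul, zero_mul] at e1 e2
      rw [e1, e2]
    · intro x y _ _ hx hy w w'
      rw [add_mul, hlin0, hx, hy, map_add, add_mul, hlin1]
    · intro c x _ hx w w'
      rw [smul_mul_assoc, hlin0s, hx, map_smul, smul_mul_assoc, hlin1s]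
  let φ : A →ₗ[ℂ] ℂ :=
    { toFun := fun x => f ![1, x]
      map_add' := fun x y => hlin1 x y 1
      map_smul' := fun c x => by simpa using hlin1s c x 1 }
  have hφ : ∀ w w' : A, f ![w, w'] = φ (st w * w') := by
    intro w w'
    have := hx w 1 w'
    rw [mul_one] at this
    exact this
  refine ⟨∑ K ∈ evs d, φ (M K) • st (M K), ?_⟩
  have hu : ∀ x : A, φ x = tr (x * ∑ K ∈ evs d, φ (M K) • st (M K)) := by
    intro x
    conv_lhs => rw [hexp x]
    rw [map_sum, Finset.mul_sum, map_sum]
    refine Finset.sum_congr rfl fun K _ => ?_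
    rw [map_smul, mul_smul_comm, map_smul, smul_eq_mul, smul_eq_mul, hT.2 x (st (M K)), mul_comm]
  intro v
  have hv : v = ![v 0, v 1] := by
    funext i
    fin_cases i <;> rfl
  conv_lhs => rw [hv]
  rw [hφ, hu]

end Pool.Agent.K1H61.SD
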